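import Pool.Agent.K4H11.AW.Prod

/-!
# Growth of the alternating sums
-/

set_option autoImplicit false
set_option linter.unusedSectionVars false

open scoped BigOperators Classical

noncomputable section

namespace Pool.Agent.K4H11.AW

open Pool.Agent.Y63.KR Pool.Agent.Q259.BW Pool.Agent.H254R3.IN Pool.Agent.Q90.WR Pool.Agent.Q288.MB

theorem exists_eps {M : ℝ} (hM : 1 ≤ M) : ∃ ε : ℝ, 0 < ε ∧ M ^ ε ≤ 3 / 2 := by
  have hM0 : (0 : ℝ) < M := by linarith
  by_cases h1 : Real.log M = 0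
  · refine ⟨1, one_pos, ?_⟩
    rw [Real.rpow_def_of_pos hM0, h1]
    norm_num
  · have h2 : 0 < Real.log M := lt_of_le_of_ne (Real.log_nonneg hM) (Ne.symm h1)
    have h3 : 0 < Real.log (3 / 2) := Real.log_pos (by norm_num)
    refine ⟨Real.log (3 / 2) / Real.log M, div_pos h3 h2, ?_⟩
    rw [Real.rpow_def_of_pos hM0, mul_div_cancel₀ _ h1, Real.exp_log (by norm_num)]

theorem exists_big (c : ℝ) : ∃ k : ℕ, c * (3 / 2) ^ 2 ^ k < 2 ^ 2 ^ k := by
  obtain ⟨m, hm⟩ := pow_unbounded_of_one_lt c (by norm_num : (1 : ℝ) < 4 / 3)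
  refine ⟨m, ?_⟩
  have h1 : ((4 : ℝ) / 3) ^ m ≤ (4 / 3) ^ 2 ^ m := by
    apply pow_le_pow_right₀ (by norm_num)
    exact (Nat.lt_two_pow_self (n := m)).le
  have h9 : (0 : ℝ) < (3 / 2 : ℝ) ^ 2 ^ m := by positivity
  have h8 : ((4 : ℝ) / 3) ^ 2 ^ m * (3 / 2 : ℝ) ^ 2 ^ m = 2 ^ 2 ^ m := by
    rw [← mul_pow]
    norm_num
  rw [← h8]
  exact mul_lt_mul_of_pos_right (lt_of_lt_of_le hm h1) h9

theorem pow_eps {M : ℝ} (hM : 1 ≤ M) {ε : ℝ} (h : M ^ ε ≤ 3 / 2) (n : ℕ) :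
    (M ^ n) ^ ε ≤ (3 / 2) ^ n := by
  have hM0 : (0 : ℝ) < M := by linarith
  have h1 : (M ^ n) ^ ε = (M ^ ε) ^ n := by
    rw [← Real.rpow_natCast M n, ← Real.rpow_mul hM0.le, mul_comm, Real.rpow_mul hM0.le,
      Real.rpow_natCast]
  rw [h1]
  exact pow_le_pow_left₀ (Real.rpow_nonneg hM0.le _) h n

section classes

variable {p : ℕ} [hp : Fact p.Prime] {O : ValuationSubring ℂ}
  {C : (G : Type) → Group G → Set (G → ℂ) → Prop}

theorem start (hp2 : p ≠ 2) (hpO : (p : ℂ) ∈ O.nonunits)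
    (h1 : ∀ (G : Type) [i : Group G] (B : Set (G → ℂ)), C G i B → AdmB p O G B)
    (h2 : ∀ (G : Type) [i : Group G] (B : Set (G → ℂ)), C G i B → C (Wr G) inferInstance (WrS B))
    (h3 : ∀ (G : Type) [i : Group G] (B : Set (G → ℂ)), C G i B →
      C (G × G) inferInstance (bxS B B)) (G : Type) [i : Group G] (B : Set (G → ℂ)) (hB : C G i B)
    (hne : blkAlt p O B ≠ 0) :
    ∃ (G' : Type) (i' : Group G') (B' : Set (G' → ℂ)), C G' i' B' ∧
      Nat.card G' = 2 * Nat.card G ^ 4 ∧ 2 ≤ blkAlt p O B' := by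
  have ha := h1 G B hB
  have := ha.fin
  have := Fintype.ofFinite G
  have ha2 := h1 (G × G) (bxS B B) (h3 G B hB)
  refine ⟨Wr (G × G), inferInstance, WrS (bxS B B), h2 _ _ (h3 G B hB), ?_, ?_⟩
  · rw [Wr.card, Nat.card_prod]
    ring
  · have h4 := blkAlt_wr (p := p) (G := G × G) hp2 hpO ha2.block (ha2.good hpO).pos
    have h5 := blkAlt_prod (p := p) (O := O) ha.block ha.block
    have h6 : 0 < blkAlt p O B * blkAlt p O B := by
      rcases lt_or_gt_of_ne hne with h | h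
      · exact mul_pos_of_neg_of_neg h h
      · exact mul_pos h h
    rw [h5] at h4
    nlinarith

theorem amplify (hp2 : p ≠ 2) (hpO : (p : ℂ) ∈ O.nonunits)
    (h1 : ∀ (G : Type) [i : Group G] (B : Set (G → ℂ)), C G i B → AdmB p O G B)
    (h2 : ∀ (G : Type) [i : Group G] (B : Set (G → ℂ)), C G i B → C (Wr G) inferInstance (WrS B))
    (h3 : ∀ (G : Type) [i : Group G] (B : Set (G → ℂ)), C G i B →
      C (G × G) inferInstance (bxS B B)) (G : Type) [i : Group G] (B : Set (G → ℂ)) (hB : C G i B)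
    (hne : blkAlt p O B ≠ 0) (k : ℕ) :
    ∃ (G' : Type) (i' : Group G') (B' : Set (G' → ℂ)), C G' i' B' ∧
      Nat.card G' = (2 * Nat.card G ^ 4) ^ 2 ^ k ∧ 2 ^ 2 ^ k ≤ blkAlt p O B' := by
  induction k with
  | zero =>
    obtain ⟨G', i', B', e1, e2, e3⟩ := start hp2 hpO h1 h2 h3 G B hB hne
    exact ⟨G', i', B', e1, by rw [e2]; ring, by norm_num; exact e3⟩
  | succ k ih =>
    obtain ⟨G', i', B', e1, e2, e3⟩ := ih
    have ha := h1 G' B' e1
    have := ha.fin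
    refine ⟨G' × G', inferInstance, bxS B' B', h3 G' B' e1, ?_, ?_⟩
    · rw [Nat.card_prod, e2, pow_succ 2 k, pow_mul, pow_two]
    · rw [blkAlt_prod ha.block ha.block, pow_succ 2 k, pow_mul, pow_two]
      have h5 : (0 : ℤ) ≤ 2 ^ 2 ^ k := by positivity
      exact mul_le_mul e3 e3 h5 (h5.trans e3)

theorem card_one_le (G : Type) [Group G] [Finite G] : (1 : ℝ) ≤ 2 * (Nat.card G : ℝ) ^ 4 := by
  have h : (1 : ℝ) ≤ (Nat.card G : ℝ) := by exact_mod_cast (Nat.card_pos (α := G))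
  have h2 : (1 : ℝ) ≤ (Nat.card G : ℝ) ^ 4 := one_le_pow₀ h
  linarith

theorem upper (hp2 : p ≠ 2) (hpO : (p : ℂ) ∈ O.nonunits)
    (h1 : ∀ (G : Type) [i : Group G] (B : Set (G → ℂ)), C G i B → AdmB p O G B)
    (h2 : ∀ (G : Type) [i : Group G] (B : Set (G → ℂ)), C G i B → C (Wr G) inferInstance (WrS B))
    (h3 : ∀ (G : Type) [i : Group G] (B : Set (G → ℂ)), C G i B →
      C (G × G) inferInstance (bxS B B)) :
    (∀ (G : Type) [i : Group G] (B : Set (G → ℂ)), C G i B → blkAlt p O B = 0) ↔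
    ∀ ε : ℝ, 0 < ε → ∃ c : ℝ, ∀ (G : Type) [i : Group G] (B : Set (G → ℂ)), C G i B →
      (blkAlt p O B : ℝ) ≤ c * (Nat.card G : ℝ) ^ ε := by
  constructor
  · intro h ε hε
    refine ⟨0, fun G _ B hB => ?_⟩
    rw [h G B hB, zero_mul, Int.cast_zero]
  · intro h G _ B hB
    by_contra hne
    have := (h1 G B hB).fin
    have hM := card_one_le G
    obtain ⟨ε, hε, hε2⟩ := exists_eps hM
    obtain ⟨c, hc⟩ := h ε hε
    obtain ⟨k, hk⟩ := exists_big (max c 0)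
    obtain ⟨G', i', B', e1, e2, e3⟩ := amplify hp2 hpO h1 h2 h3 G B hB hne k
    have h4 := hc G' B' e1
    rw [e2] at h4
    push_cast at h4
    have h5 := pow_eps hM hε2 (2 ^ k)
    have h6 : ((2 : ℝ)) ^ 2 ^ k ≤ (blkAlt p O B' : ℝ) := by exact_mod_cast e3
    have h7 : c * ((2 * (Nat.card G : ℝ) ^ 4) ^ 2 ^ k) ^ ε ≤ max c 0 * (3 / 2) ^ 2 ^ k := by
      refine mul_le_mul (le_max_left _ _) h5 (Real.rpow_nonneg (by positivity) _) (le_max_right _ _)
    linarith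

theorem lower (hp2 : p ≠ 2) (hpO : (p : ℂ) ∈ O.nonunits)
    (h1 : ∀ (G : Type) [i : Group G] (B : Set (G → ℂ)), C G i B → AdmB p O G B)
    (h2 : ∀ (G : Type) [i : Group G] (B : Set (G → ℂ)), C G i B → C (Wr G) inferInstance (WrS B))
    (h3 : ∀ (G : Type) [i : Group G] (B : Set (G → ℂ)) (G' : Type) [i' : Group G']
      (B' : Set (G' → ℂ)), C G i B → C G' i' B' → C (G × G') inferInstance (bxS B B')) :
    (∀ (G : Type) [i : Group G] (B : Set (G → ℂ)), C G i B → 0 ≤ blkAlt p O B) ↔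
    ∀ ε : ℝ, 0 < ε → ∃ c : ℝ, ∀ (G : Type) [i : Group G] (B : Set (G → ℂ)), C G i B →
      -(c * (Nat.card G : ℝ) ^ ε) ≤ (blkAlt p O B : ℝ) := by
  constructor
  · intro h ε hε
    refine ⟨0, fun G _ B hB => ?_⟩
    rw [zero_mul, neg_zero]
    exact_mod_cast h G B hB
  · intro h G _ B hB
    by_contra hneg
    push Not at hneg
    have ha := h1 G B hB
    have := ha.fin
    have hM := card_one_le G
    obtain ⟨ε, hε, hε2⟩ := exists_eps hM
    obtain ⟨c, hc⟩ := h ε hε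
    obtain ⟨k, hk⟩ := exists_big (max c 0 * (Nat.card G : ℝ) ^ ε)
    obtain ⟨G', i', B', e1, e2, e3⟩ := amplify hp2 hpO h1 h2 (fun G _ B h => h3 G B G B h h) G B hB
      hneg.ne k
    have ha' := h1 G' B' e1
    have := ha'.fin
    have h4 := hc (G × G') (bxS B B') (h3 G B G' B' hB e1)
    rw [blkAlt_prod ha.block ha'.block, Nat.card_prod, e2] at h4
    push_cast at h4
    have h5 := pow_eps hM hε2 (2 ^ k)
    have h6 : (blkAlt p O B : ℝ) * (blkAlt p O B' : ℝ) ≤ -(2 : ℝ) ^ 2 ^ k := by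
      have h7 : blkAlt p O B * blkAlt p O B' ≤ -(2 : ℤ) ^ 2 ^ k := by
        have h8 : (0 : ℤ) < 2 ^ 2 ^ k := by positivity
        nlinarith
      exact_mod_cast h7
    have hG0 : (0 : ℝ) ≤ (Nat.card G : ℝ) := Nat.cast_nonneg _
    have h7 : c * ((Nat.card G : ℝ) * (2 * (Nat.card G : ℝ) ^ 4) ^ 2 ^ k) ^ ε ≤
        max c 0 * (Nat.card G : ℝ) ^ ε * (3 / 2) ^ 2 ^ k := by
      rw [Real.mul_rpow hG0 (by positivity), mul_assoc]
      refine mul_le_mul (le_max_left _ _) ?_ (by positivity) (le_max_right _ _)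
      exact mul_le_mul_of_nonneg_left h5 (Real.rpow_nonneg hG0 _)
    linarith

end classes

end Pool.Agent.K4H11.AW
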