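import Pool.Agent.Q288.MB.Orb
import Pool.Agent.Q90.WR.Bcl

/-!
# Alternating sums for the block of `G ≀ C₂` above two different blocks of `G`
-/

set_option autoImplicit false
set_option linter.unusedSectionVars false

open scoped BigOperators Classical

noncomputable section

namespace Pool.Agent.K4H11.AW

open Pool.Agent.Y63.KR Pool.Agent.Q259.BW Pool.Agent.H254R3.IN Pool.Agent.Q90.WR Pool.Agent.Q288.MB

section pairs

variable {G : Type} [Group G] {O : ValuationSubring ℂ}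

/-- two functions on a set with the same symmetrised products -/
theorem pair_of_prod {F : Type} [Field F] (h2 : (2 : F) ≠ 0) {r₁ r₂ l₁ l₂ : G → F}
    (n1 : r₁ 1 = 1) (n2 : r₂ 1 = 1) (n3 : l₁ 1 = 1) (n4 : l₂ 1 = 1)
    (h : ∀ a b : G, r₁ a * r₂ b + r₂ a * r₁ b = l₁ a * l₂ b + l₂ a * l₁ b) :
    (∀ a, r₁ a = l₁ a ∧ r₂ a = l₂ a) ∨ (∀ a, r₁ a = l₂ a ∧ r₂ a = l₁ a) := by
  have hs : ∀ a, r₁ a + r₂ a = l₁ a + l₂ a := by
    intro a
    have := h a 1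
    rwa [n1, n2, n3, n4, mul_one, mul_one, mul_one, mul_one] at this
  have hp : ∀ a, r₁ a * r₂ a = l₁ a * l₂ a := by
    intro a
    apply mul_left_cancel₀ h2
    linear_combination h a a
  have hor : ∀ a, r₁ a = l₁ a ∨ r₁ a = l₂ a := by
    intro a
    have h3 : (r₁ a - l₁ a) * (r₁ a - l₂ a) = 0 := by
      linear_combination (r₁ a) * (hs a) - hp a
    rcases mul_eq_zero.mp h3 with h4 | h4
    · exact Or.inl (sub_eq_zero.mp h4)
    · exact Or.inr (sub_eq_zero.mp h4)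
  by_cases hall : ∀ a, r₁ a = l₁ a
  · refine Or.inl fun a => ⟨hall a, ?_⟩
    have := hs a
    rw [hall a] at this
    exact add_left_cancel this
  · push Not at hall
    obtain ⟨a, ha⟩ := hall
    have ha2 : r₁ a = l₂ a := (hor a).resolve_left ha
    have ha1 : r₂ a = l₁ a := by
      have := hs a
      rw [ha2, add_comm (l₁ a)] at this
      exact add_left_cancel this
    have key : ∀ b, r₁ b = l₂ b := by
      intro b
      by_contra hb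
      have hb1 : r₁ b = l₁ b := (hor b).resolve_right hb
      have hb2 : r₂ b = l₂ b := by
        have := hs b
        rw [hb1] at this
        exact add_left_cancel this
      have h5 := h a b
      rw [ha2, ha1, hb1, hb2] at h5
      have h6 : (l₂ a - l₁ a) * (l₂ b - l₁ b) = 0 := by linear_combination h5
      rcases mul_eq_zero.mp h6 with h7 | h7
      · exact ha (by rw [ha2, sub_eq_zero.mp h7])
      · exact hb (by rw [hb1, sub_eq_zero.mp h7])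
    refine Or.inr fun b => ⟨key b, ?_⟩
    have := hs b
    rw [key b, add_comm (l₁ b)] at this
    exact add_left_cancel this

theorem kap_red_ne (h2 : (2 : ℂ)⁻¹ ∈ O) (a b : G) : red O (Q259.BW.kap a b) ≠ 0 := by
  obtain ⟨hh, h2ne⟩ := half_red h2
  unfold Q259.BW.kap
  split_ifs
  · rw [one_div]
    intro h
    rw [h, zero_mul] at hh
    exact zero_ne_one hh
  · rw [red_one]
    exact one_ne_zero

theorem red_kap_sym (h2 : (2 : ℂ)⁻¹ ∈ O) {l₁ l₂ : G → ℂ} (m1 : ∀ a, l₁ a ∈ O) (m2 : ∀ a, l₂ a ∈ O)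
    (a b : G) : Q259.BW.kap a b * (l₁ a * l₂ b + l₂ a * l₁ b) ∈ O ∧
      red O (Q259.BW.kap a b * (l₁ a * l₂ b + l₂ a * l₁ b)) =
        red O (Q259.BW.kap a b) * (red O (l₁ a) * red O (l₂ b) + red O (l₂ a) * red O (l₁ b)) := by
  have e1 := O.mul_mem _ _ (m1 a) (m2 b)
  have e2 := O.mul_mem _ _ (m2 a) (m1 b)
  refine ⟨O.mul_mem _ _ (kap_mem h2 _ _) (O.add_mem _ _ e1 e2), ?_⟩
  rw [red_mul (kap_mem h2 _ _) (O.add_mem _ _ e1 e2), red_add e1 e2, red_mul (m1 a) (m2 b),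
    red_mul (m2 a) (m1 b)]

end pairs

section blocks

variable {G : Type} [Group G] [Fintype G] {O : ValuationSubring ℂ} {B₁ B₂ : Set (G → ℂ)}
variable {K K' : Type} [Group K] [Fintype K] [Group K'] [Fintype K']

/-- the central character of the mixed block -/
theorem omega_WrM (h2 : (2 : ℂ)⁻¹ ∈ O) (hB₁ : IsBlock O B₁) (hB₂ : IsBlock O B₂) {χ₁ χ₂ : G → ℂ}
    (h1 : χ₁ ∈ B₁) (h1' : χ₂ ∈ B₂) (hne : B₁ ≠ B₂) :
    (∀ a b : G, red O (omega (ind2 χ₁ χ₂) ⟨a, b, false⟩) = red O (Q259.BW.kap a b) *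
      (red O (omega χ₁ a) * red O (omega χ₂ b) + red O (omega χ₂ a) * red O (omega χ₁ b))) ∧
    ∀ a b : G, red O (omega (ind2 χ₁ χ₂) ⟨a, b, true⟩) = 0 := by
  have hi := WrM_irr hB₁.irr hB₂.irr (block_disjoint hB₁ hB₂ hne) _ ⟨χ₁, h1, χ₂, h1', rfl⟩
  have i1 := hB₁.irr _ h1
  have i2 := hB₂.irr _ h1'
  constructor
  · intro a b
    rw [omega_eq_L' hi, L_ind_base i1.one_ne i2.one_ne]
    have m1 : ∀ a, L (MonoidHom.id G) χ₁ a ∈ O := fun a => by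
      rw [← omega_eq_L i1]; exact i1.omega_mem O a
    have m2 : ∀ a, L (MonoidHom.id G) χ₂ a ∈ O := fun a => by
      rw [← omega_eq_L i2]; exact i2.omega_mem O a
    rw [(red_kap_sym h2 m1 m2 a b).2, ← omega_eq_L i1, ← omega_eq_L i1, ← omega_eq_L i2,
      ← omega_eq_L i2]
  · intro a b
    rw [omega_eq_L' hi, L_ind_true, red_zero]

theorem IndS_disj (hB₁ : IsBlock O B₁) (hB₂ : IsBlock O B₂) (hne : B₁ ≠ B₂) (π : K → G) :
    Disjoint (IndS O B₁ π) (IndS O B₂ π) := by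
  rw [Set.disjoint_left]
  intro θ h1 h2
  obtain ⟨χ₁, c1⟩ := hB₁.nonempty
  obtain ⟨χ₂, c2⟩ := hB₂.nonempty
  rw [mem_IndS hB₁ c1] at h1
  rw [mem_IndS hB₂ c2] at h2
  have hn : χ₁ ∉ B₂ := fun h => Set.disjoint_left.mp (block_disjoint hB₁ hB₂ hne) c1 h
  obtain ⟨x, hx⟩ := hB₂.exists_ne c2 (hB₁.irr _ c1) hn
  apply hx
  rw [← (h1.2 x).2, ← (h2.2 x).2]

theorem mix_key (h2 : (2 : ℂ)⁻¹ ∈ O) (hB₁ : IsBlock O B₁) (hB₂ : IsBlock O B₂) {χ₁ χ₂ : G → ℂ}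
    (c1 : χ₁ ∈ B₁) (c2 : χ₂ ∈ B₂) (π : K →* G) (π' : K' →* G)
    (hπ : Function.Injective π) (hπ' : Function.Injective π') {θ : K → ℂ} {ψ : K' → ℂ}
    (i1 : IsIrr θ) (i2 : IsIrr ψ)
    (h : ∀ a b : G, red O (Q259.BW.kap a b * (L π θ a * L π' ψ b + L π' ψ a * L π θ b)) =
      red O (Q259.BW.kap a b) *
      (red O (omega χ₁ a) * red O (omega χ₂ b) + red O (omega χ₂ a) * red O (omega χ₁ b))) :
    (θ ∈ IndS O B₁ π ∧ ψ ∈ IndS O B₂ π') ∨ (θ ∈ IndS O B₂ π ∧ ψ ∈ IndS O B₁ π') := by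
  obtain ⟨-, h2ne⟩ := half_red h2
  have m1 := L_mem (π := π) i1 O
  have m2 := L_mem (π := π') i2 O
  have h' : ∀ a b : G, red O (L π θ a) * red O (L π' ψ b) + red O (L π' ψ a) * red O (L π θ b) =
      red O (omega χ₁ a) * red O (omega χ₂ b) + red O (omega χ₂ a) * red O (omega χ₁ b) := by
    intro a b
    have h3 := h a b
    rw [(red_kap_sym h2 m1 m2 a b).2] at h3
    exact mul_left_cancel₀ (kap_red_ne h2 a b) h3
  have e1 : red O (L π θ 1) = 1 := by rw [L_at_one hπ (IsIrr.one_ne i1), red_one]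
  have e2 : red O (L π' ψ 1) = 1 := by rw [L_at_one hπ' (IsIrr.one_ne i2), red_one]
  have e3 : red O (omega χ₁ 1) = 1 := by rw [omega_one (hB₁.irr _ c1), red_one]
  have e4 : red O (omega χ₂ 1) = 1 := by rw [omega_one (hB₂.irr _ c2), red_one]
  rcases pair_of_prod h2ne (r₁ := fun a => red O (L π θ a)) (r₂ := fun a => red O (L π' ψ a))
    (l₁ := fun a => red O (omega χ₁ a)) (l₂ := fun a => red O (omega χ₂ a)) e1 e2 e3 e4 h' with h4 | h4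
  · exact Or.inl ⟨(mem_IndS hB₁ c1 _ _).mpr ⟨i1, fun a => ⟨m1 a, (h4 a).1⟩⟩,
      (mem_IndS hB₂ c2 _ _).mpr ⟨i2, fun a => ⟨m2 a, (h4 a).2⟩⟩⟩
  · exact Or.inr ⟨(mem_IndS hB₂ c2 _ _).mpr ⟨i1, fun a => ⟨m1 a, (h4 a).1⟩⟩,
      (mem_IndS hB₁ c1 _ _).mpr ⟨i2, fun a => ⟨m2 a, (h4 a).2⟩⟩⟩

/-- **the product of two subgroups** -/
theorem IndS_prodM (h2 : (2 : ℂ)⁻¹ ∈ O) (hB₁ : IsBlock O B₁) (hB₂ : IsBlock O B₂) (hne : B₁ ≠ B₂)
    (π : K →* G) (π' : K' →* G) (hπ : Function.Injective π) (hπ' : Function.Injective π') :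
    IndS O (WrM B₁ B₂) (pmap π π') =
      bxS (IndS O B₁ π) (IndS O B₂ π') ∪ bxS (IndS O B₂ π) (IndS O B₁ π') := by
  obtain ⟨χ₁, c1⟩ := hB₁.nonempty
  obtain ⟨χ₂, c2⟩ := hB₂.nonempty
  have hW := wrM_block hB₁ hB₂ hne
  have hX0 : ind2 χ₁ χ₂ ∈ WrM B₁ B₂ := ⟨χ₁, c1, χ₂, c2, rfl⟩
  obtain ⟨w1, w2⟩ := omega_WrM h2 hB₁ hB₂ c1 c2 hne
  ext χ
  rw [mem_IndS hW hX0]
  constructor
  · rintro ⟨h1, h3⟩
    obtain ⟨θ, ψ, i1, i2, rfl⟩ := box_cover h1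
    have hk := mix_key h2 hB₁ hB₂ c1 c2 π π' hπ hπ' i1 i2 (fun a b => by
      have h4 := (h3 ⟨a, b, false⟩).2
      rwa [L_box_base (IsIrr.one_ne i1) (IsIrr.one_ne i2), w1] at h4)
    rcases hk with hk | hk
    · exact Or.inl ⟨θ, hk.1, ψ, hk.2, rfl⟩
    · exact Or.inr ⟨θ, hk.1, ψ, hk.2, rfl⟩
  · have key : ∀ {C₁ C₂ : Set (G → ℂ)} {ρ₁ ρ₂ : G → ℂ}, IsBlock O C₁ → IsBlock O C₂ → ρ₁ ∈ C₁ →
        ρ₂ ∈ C₂ → (∀ a b : G, red O (omega ρ₁ a) * red O (omega ρ₂ b) +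
          red O (omega ρ₂ a) * red O (omega ρ₁ b) = red O (omega χ₁ a) * red O (omega χ₂ b) +
          red O (omega χ₂ a) * red O (omega χ₁ b)) → χ ∈ bxS (IndS O C₁ π) (IndS O C₂ π') →
        IsIrr χ ∧ ∀ x, L (pmap π π') χ x ∈ O ∧
          red O (L (pmap π π') χ x) = red O (omega (ind2 χ₁ χ₂) x) := by
      rintro C₁ C₂ ρ₁ ρ₂ b1 b2 r1 r2 hs ⟨θ, h1, ψ, h3, rfl⟩
      rw [mem_IndS b1 r1] at h1
      rw [mem_IndS b2 r2] at h3
      obtain ⟨i1, e1⟩ := h1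
      obtain ⟨i2, e2⟩ := h3
      refine ⟨box_irr i1 i2, ?_⟩
      rintro ⟨a, b, s⟩
      cases s
      · rw [L_box_base (IsIrr.one_ne i1) (IsIrr.one_ne i2), w1]
        have h5 := red_kap_sym h2 (fun a => (e1 a).1) (fun a => (e2 a).1) a b
        rw [(e1 a).2, (e2 b).2, (e2 a).2, (e1 b).2, hs] at h5
        exact h5
      · rw [L_box_true, w2]
        exact ⟨O.zero_mem, red_zero⟩
    rintro (h | h)
    · exact key hB₁ hB₂ c1 c2 (fun a b => rfl) h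
    · exact key hB₂ hB₁ c2 c1 (fun a b => add_comm _ _) h

/-- **the wreath product of a subgroup** -/
theorem IndS_wrM (h2 : (2 : ℂ)⁻¹ ∈ O) (hB₁ : IsBlock O B₁) (hB₂ : IsBlock O B₂) (hne : B₁ ≠ B₂)
    (π : K →* G) (hπ : Function.Injective π) :
    IndS O (WrM B₁ B₂) (wmap π) = WrM (IndS O B₁ π) (IndS O B₂ π) := by
  obtain ⟨χ₁, c1⟩ := hB₁.nonempty
  obtain ⟨χ₂, c2⟩ := hB₂.nonempty
  have hW := wrM_block hB₁ hB₂ hne
  have hX0 : ind2 χ₁ χ₂ ∈ WrM B₁ B₂ := ⟨χ₁, c1, χ₂, c2, rfl⟩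
  obtain ⟨w1, w2⟩ := omega_WrM h2 hB₁ hB₂ c1 c2 hne
  have hdis := IndS_disj hB₁ hB₂ hne (K := K) π
  ext χ
  rw [mem_IndS hW hX0]
  constructor
  · rintro ⟨h1, h3⟩
    have key : ∀ θ ψ : K → ℂ, IsIrr θ → IsIrr ψ → (∀ a b : G,
        L (wmap π) χ ⟨a, b, false⟩ = Q259.BW.kap a b * (L π θ a * L π ψ b + L π ψ a * L π θ b)) →
        (θ ∈ IndS O B₁ π ∧ ψ ∈ IndS O B₂ π) ∨ (θ ∈ IndS O B₂ π ∧ ψ ∈ IndS O B₁ π) := by
      intro θ ψ i1 i2 he
      refine mix_key h2 hB₁ hB₂ c1 c2 π π hπ hπ i1 i2 fun a b => ?_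
      have h4 := (h3 ⟨a, b, false⟩).2
      rwa [he, w1] at h4
    rcases cover h1 with ⟨θ₁, θ₂, i1, i2, -, rfl⟩ | ⟨θ, i1, rfl⟩ | ⟨θ, i1, rfl⟩
    · rcases key θ₁ θ₂ i1 i2 fun a b => L_ind_base (IsIrr.one_ne i1) (IsIrr.one_ne i2) a b with h | h
      · exact ⟨θ₁, h.1, θ₂, h.2, rfl⟩
      · exact ⟨θ₂, h.2, θ₁, h.1, ind2_comm _ _⟩
    · exfalso
      rcases key θ θ i1 i1 fun a b => L_ext_base (IsIrr.one_ne i1) 1 a b with h | h
      · exact Set.disjoint_left.mp hdis h.1 h.2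
      · exact Set.disjoint_left.mp hdis h.2 h.1
    · exfalso
      rcases key θ θ i1 i1 fun a b => L_ext_base (IsIrr.one_ne i1) (-1) a b with h | h
      · exact Set.disjoint_left.mp hdis h.1 h.2
      · exact Set.disjoint_left.mp hdis h.2 h.1
  · rintro ⟨θ, h1, ψ, h3, rfl⟩
    refine ⟨WrM_irr IndS_irr IndS_irr hdis _ ⟨θ, h1, ψ, h3, rfl⟩, ?_⟩
    rw [mem_IndS hB₁ c1] at h1
    rw [mem_IndS hB₂ c2] at h3
    obtain ⟨i1, e1⟩ := h1
    obtain ⟨i2, e2⟩ := h3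
    rintro ⟨a, b, s⟩
    cases s
    · rw [L_ind_base (IsIrr.one_ne i1) (IsIrr.one_ne i2), w1]
      have h5 := red_kap_sym h2 (fun a => (e1 a).1) (fun a => (e2 a).1) a b
      rw [(e1 a).2, (e2 b).2, (e2 a).2, (e1 b).2] at h5
      exact h5
    · rw [L_ind_true, w2]
      exact ⟨O.zero_mem, red_zero⟩

end blocks

section numbers

variable {G : Type} [Group G] [Fintype G] {O : ValuationSubring ℂ} {B₁ B₂ B : Set (G → ℂ)}

/-- `k(B_σ)` for `G_σ = H` -/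
def nb (O : ValuationSubring ℂ) {G : Type} [Group G] (B : Set (G → ℂ)) (H : Subgroup G) : ℕ :=
  Nat.card (IndS O B (Subtype.val : H → G))

/-- transport of sets of functions -/
theorem card_transport' {K K' : Type} [Group K] [Group K'] (e : K ≃* K') {A : Set (K → ℂ)}
    {A' : Set (K' → ℂ)} (h : ∀ θ : K' → ℂ, (fun g => θ (e g)) ∈ A ↔ θ ∈ A') :
    Nat.card A = Nat.card A' := by
  symm
  refine Nat.card_congr
    { toFun := fun θ => ⟨fun g => θ.1 (e g), (h θ.1).mpr θ.2⟩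
      invFun := fun θ => ⟨fun g => θ.1 (e.symm g), (h _).mp (by simpa using θ.2)⟩
      left_inv := fun θ => ?_
      right_inv := fun θ => ?_ }
  · apply Subtype.ext
    funext g
    simp
  · apply Subtype.ext
    funext g
    simp

theorem card_bxS {H K : Type} [Group H] [Group K] [Finite H] [Finite K] {A : Set (H → ℂ)}
    {A' : Set (K → ℂ)} (hA : ∀ θ ∈ A, IsIrr θ) (hA' : ∀ θ ∈ A', IsIrr θ) :
    Nat.card (bxS A A') = Nat.card A * Nat.card A' := by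
  have := Fintype.ofFinite H
  have := Fintype.ofFinite K
  rw [← Nat.card_prod]
  refine (Nat.card_congr (Equiv.ofBijective
    (fun t : A × A' => (⟨box t.1.1 t.2.1, t.1.1, t.1.2, t.2.1, t.2.2, rfl⟩ : bxS A A')) ⟨?_, ?_⟩)).symm
  · rintro ⟨⟨θ₁, t1⟩, ⟨θ₂, t2⟩⟩ ⟨⟨ψ₁, s1⟩, ⟨ψ₂, s2⟩⟩ h
    have h' : box θ₁ θ₂ = box ψ₁ ψ₂ := congrArg Subtype.val h
    obtain ⟨rfl, rfl⟩ := box_inj (hA _ t1) (hA' _ t2) (hA _ s1) (hA' _ s2) h'
    rfl
  · rintro ⟨χ, θ₁, t1, θ₂, t2, rfl⟩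
    exact ⟨(⟨θ₁, t1⟩, ⟨θ₂, t2⟩), rfl⟩

theorem nb_conj (b : G) (H : Subgroup G) : nb O B (conjSub b H) = nb O B H := by
  symm
  exact card_transport' (conjEquiv b H) fun θ =>
    IndS_congr (conjEquiv b H) (fun c => isConj_iff.mpr ⟨b, rfl⟩) θ

theorem nb_prd (h2 : (2 : ℂ)⁻¹ ∈ O) (hB₁ : IsBlock O B₁) (hB₂ : IsBlock O B₂) (hne : B₁ ≠ B₂)
    (H K : Subgroup G) :
    nb O (WrM B₁ B₂) (prd H K) = nb O B₁ H * nb O B₂ K + nb O B₂ H * nb O B₁ K := by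
  have := Fintype.ofFinite H
  have := Fintype.ofFinite K
  have h := IndS_prodM h2 hB₁ hB₂ hne H.subtype K.subtype (Subgroup.subtype_injective H)
    (Subgroup.subtype_injective K)
  have h3 : IndS O (WrM B₁ B₂) (pmap (Subtype.val : H → G) (Subtype.val : K → G)) =
    bxS (IndS O B₁ (Subtype.val : H → G)) (IndS O B₂ (Subtype.val : K → G)) ∪
      bxS (IndS O B₂ (Subtype.val : H → G)) (IndS O B₁ (Subtype.val : K → G)) := h
  have h4 : nb O (WrM B₁ B₂) (prd H K) =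
      Nat.card (IndS O (WrM B₁ B₂) (pmap (Subtype.val : H → G) (Subtype.val : K → G))) := by
    refine card_transport' (prdEquiv H K) fun θ => IndS_congr (prdEquiv H K) (fun c => ?_) θ
    have : c.1 = pmap (Subtype.val : H → G) (Subtype.val : K → G) (prdEquiv H K c) := by
      obtain ⟨⟨a, b, s⟩, h1, h2, h3⟩ := c
      simp only at h1
      subst h1
      rfl
    rw [← this]
  rw [h4, h3]
  have hd : Disjoint (bxS (IndS O B₁ (Subtype.val : H → G)) (IndS O B₂ (Subtype.val : K → G)))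
      (bxS (IndS O B₂ (Subtype.val : H → G)) (IndS O B₁ (Subtype.val : K → G))) := by
    rw [Set.disjoint_left]
    rintro _ ⟨θ, h1, ψ, h2, rfl⟩ ⟨θ', h1', ψ', h2', h⟩
    obtain ⟨rfl, rfl⟩ := box_inj (IndS_irr _ h1) (IndS_irr _ h2) (IndS_irr _ h1') (IndS_irr _ h2') h
    exact Set.disjoint_left.mp (IndS_disj hB₁ hB₂ hne (Subtype.val : H → G)) h1 h1'
  have f1 : (bxS (IndS O B₁ (Subtype.val : H → G)) (IndS O B₂ (Subtype.val : K → G))).Finite :=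
    finite_of_irr (by rintro _ ⟨θ, h1, ψ, h2, rfl⟩; exact box_irr (IndS_irr _ h1) (IndS_irr _ h2))
  have f2 : (bxS (IndS O B₂ (Subtype.val : H → G)) (IndS O B₁ (Subtype.val : K → G))).Finite :=
    finite_of_irr (by rintro _ ⟨θ, h1, ψ, h2, rfl⟩; exact box_irr (IndS_irr _ h1) (IndS_irr _ h2))
  have h5 := Set.ncard_union_eq hd f1 f2
  rw [← Nat.card_coe_set_eq, ← Nat.card_coe_set_eq, ← Nat.card_coe_set_eq,
    card_bxS IndS_irr IndS_irr, card_bxS IndS_irr IndS_irr] at h5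
  exact h5

theorem nb_twS (h2 : (2 : ℂ)⁻¹ ∈ O) (hB₁ : IsBlock O B₁) (hB₂ : IsBlock O B₂) (hne : B₁ ≠ B₂)
    (b : G) (H : Subgroup G) :
    nb O (WrM B₁ B₂) (twS b H) = nb O B₁ H * nb O B₂ H := by
  have := Fintype.ofFinite H
  let e0 := conjEquiv (⟨1, b, false⟩ : Wr G) (wrS H)
  let e1 := wrSEquiv H
  let e : Wr H ≃* twS b H := e1.symm.trans e0
  have h := IndS_wrM h2 hB₁ hB₂ hne H.subtype (Subgroup.subtype_injective _)
  have h3 : IndS O (WrM B₁ B₂) (wmap (Subtype.val : H → G)) =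
    WrM (IndS O B₁ (Subtype.val : H → G)) (IndS O B₂ (Subtype.val : H → G)) := h
  have h4 : Nat.card (IndS O (WrM B₁ B₂) (wmap (Subtype.val : H → G))) =
      nb O (WrM B₁ B₂) (twS b H) := by
    refine card_transport' e fun θ => IndS_congr e (fun c => ?_) θ
    exact isConj_iff.mpr ⟨⟨1, b, false⟩, rfl⟩
  rw [← h4, h3, card_WrM IndS_irr IndS_irr (IndS_disj hB₁ hB₂ hne _)]
  rfl

end numbers

end Pool.Agent.K4H11.AW
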