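import Pool.Agent.K4H11.AW.Rec
import Pool.Agent.K4H11.AM.Mod2

/-!
# Parity of the numbers of characters of subgroups, for blocks with an odd number of conjugates
-/

set_option autoImplicit false
set_option linter.unusedSectionVars false

open scoped BigOperators Classical Pointwise

noncomputable section

namespace Pool.Agent.K4H11.AW

open Pool.Agent.Y63.KR Pool.Agent.Q259.BW Pool.Agent.H254R3.IN Pool.Agent.Q90.WR Pool.Agent.Q288.MB
open Pool.Agent.K4H11.AM

section chars

variable {G K : Type} [Group G] [Group K]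

theorem parity2 [Finite G] [Finite K] {B : Set (G → ℂ)} {A : Set (K → ℂ)} (hB : ∀ θ ∈ B, IsIrr θ)
    (hA : ∀ θ ∈ A, IsIrr θ)
    (hodd : Odd (numConj B)) (hst : ∀ σ : ℂ ≃+* ℂ, gal σ B = B → gal σ A = A) :
    Nat.card A ≡ Nat.card (oddPart A) [MOD 2] := by
  let _ := actI G
  let _ := actI K
  have hfin : Finite (II G) := finite_II
  have hfin' : Finite (II K) := finite_II
  let φ₁ : (ℂ ≃+* ℂ) →* Equiv.Perm (II G) := MulAction.toPermHom _ _
  let φ₂ : (ℂ ≃+* ℂ) →* Equiv.Perm (II K) := MulAction.toPermHom _ _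
  let φ : (ℂ ≃+* ℂ) →* Equiv.Perm (II G) × Equiv.Perm (II K) := φ₁.prod φ₂
  have hc : ∀ a b : φ.range, a * b = b * a := by
    rintro ⟨_, σ, rfl⟩ ⟨_, τ, rfl⟩
    apply Subtype.ext
    refine Prod.ext ?_ ?_
    · apply Equiv.ext
      intro χ
      apply Subtype.ext
      funext g
      exact comm_irr σ τ χ.2 g
    · apply Equiv.ext
      intro χ
      apply Subtype.ext
      funext g
      exact comm_irr σ τ χ.2 g
  let _ : MulAction φ.range (II G) :=
    { smul := fun a x => a.1.1 x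
      one_smul := fun _ => rfl
      mul_smul := fun _ _ _ => rfl }
  let _ : MulAction φ.range (II K) :=
    { smul := fun a x => a.1.2 x
      one_smul := fun _ => rfl
      mul_smul := fun _ _ _ => rfl }
  -- the action on sets
  let S : Set (II G) := {χ | χ.1 ∈ B}
  let T : Set (II K) := {χ | χ.1 ∈ A}
  have himg : ∀ {C : Set (G → ℂ)}, (∀ θ ∈ C, IsIrr θ) →
      Subtype.val '' {χ : II G | χ.1 ∈ C} = C := by
    intro C hC
    ext χ
    constructor
    · rintro ⟨ψ, h, rfl⟩
      exact h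
    · exact fun h => ⟨⟨χ, hC χ h⟩, h, rfl⟩
  have himg' : Subtype.val '' T = A := by
    ext χ
    constructor
    · rintro ⟨ψ, h, rfl⟩
      exact h
    · exact fun h => ⟨⟨χ, hA χ h⟩, h, rfl⟩
  have hsm : ∀ (σ : ℂ ≃+* ℂ) (U : Set (II G)),
      Subtype.val '' ((⟨φ σ, σ, rfl⟩ : φ.range) • U) = gal σ (Subtype.val '' U) := by
    intro σ U
    ext χ
    constructor
    · rintro ⟨_, ⟨ψ, h, rfl⟩, rfl⟩
      exact ⟨ψ.1, ⟨ψ, h, rfl⟩, rfl⟩
    · rintro ⟨_, ⟨ψ, h, rfl⟩, rfl⟩
      exact ⟨φ₁ σ ψ, ⟨ψ, h, rfl⟩, rfl⟩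
  have hinj : Function.Injective (fun U : Set (II G) => (Subtype.val '' U : Set (G → ℂ))) :=
    Set.image_injective.mpr Subtype.val_injective
  have horb : (MulAction.orbit φ.range S).ncard = numConj B := by
    have h1 : (fun U : Set (II G) => (Subtype.val '' U : Set (G → ℂ))) ''
        MulAction.orbit φ.range S = conjs B := by
      ext C
      constructor
      · rintro ⟨_, ⟨⟨_, σ, rfl⟩, rfl⟩, rfl⟩
        refine ⟨σ, ?_⟩
        change Subtype.val '' ((⟨φ σ, σ, rfl⟩ : φ.range) • S) = gal σ B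
        rw [hsm, himg hB]
      · rintro ⟨σ, rfl⟩
        refine ⟨(⟨φ σ, σ, rfl⟩ : φ.range) • S, ⟨_, rfl⟩, ?_⟩
        change Subtype.val '' ((⟨φ σ, σ, rfl⟩ : φ.range) • S) = gal σ B
        rw [hsm, himg hB]
    change _ = (conjs B).ncard
    rw [← h1, Set.ncard_image_of_injective _ hinj]
  have hTA : Nat.card T = Nat.card A := by
    have h1 : Nat.card (Subtype.val '' T : Set (K → ℂ)) = Nat.card T :=
      Nat.card_image_of_injective Subtype.val_injective T
    rw [← h1, himg']
  have hst' : ∀ a : φ.range, a • S = S → ∀ y ∈ T, a • y ∈ T := by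
    rintro ⟨_, σ, rfl⟩ h y hy
    have h1 := hsm σ S
    rw [h, himg hB] at h1
    have h2 := hst σ h1.symm
    change (fun g => σ (y.1 g)) ∈ A
    rw [← h2]
    exact ⟨y.1, hy, rfl⟩
  have h1 := modEq_of_odd hc (X := Set (II G)) S (by rw [horb]; exact hodd) T (Set.toFinite T) hst'
  rw [hTA] at h1
  refine h1.trans ?_
  have h2 : ∀ χ : II K, (MulAction.orbit φ.range χ).ncard =
      Module.finrank ℚ (IntermediateField.adjoin ℚ (Set.range χ.1)) := by
    intro χ
    rw [← conj_eq_finrank χ.2]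
    have h3 : Subtype.val '' MulAction.orbit φ.range χ = conjF χ.1 := by
      ext ψ
      constructor
      · rintro ⟨_, ⟨⟨_, σ, rfl⟩, rfl⟩, rfl⟩
        exact ⟨σ, rfl⟩
      · rintro ⟨σ, rfl⟩
        exact ⟨(⟨φ σ, σ, rfl⟩ : φ.range) • χ, ⟨_, rfl⟩, rfl⟩
    rw [← h3, Set.ncard_image_of_injective _ Subtype.val_injective]
  have h3 : Nat.card {y : II K // y ∈ T ∧ Odd (MulAction.orbit φ.range y).ncard} =
      Nat.card (oddPart A) := by
    refine Nat.card_congr
      { toFun := fun y => ⟨y.1.1, y.2.1, ?_⟩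
        invFun := fun y => ⟨⟨y.1, hA _ y.2.1⟩, y.2.1, ?_⟩
        left_inv := fun y => rfl
        right_inv := fun y => rfl }
    · have := y.2.2
      rw [h2] at this
      exact this
    · rw [h2]
      exact y.2.2
  rw [h3]

end chars

section sums

variable {p : ℕ} [hp : Fact p.Prime] {O : ValuationSubring ℂ}

/-- The number of the `θ ∈ Irr(H)` with `bl(θ)^G = B` and `[ℚ(θ) : ℚ]` odd. -/
def nbo (O : ValuationSubring ℂ) {G : Type} [Group G] (B : Set (G → ℂ)) (H : Subgroup G) : ℕ :=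
  Nat.card (oddPart (IndS O B (Subtype.val : H → G)))

theorem nb_mod {G : Type} [Group G] [Finite G] {B : Set (G → ℂ)} (hB : IsBlock O B)
    (hodd : Odd (numConj B)) (H : Subgroup G) : nb O B H ≡ nbo O B H [MOD 2] := by
  have := Fintype.ofFinite G
  refine parity2 hB.irr IndS_irr hodd fun σ h => ?_
  have h1 := IndS_gal σ hB H
  rw [h] at h1
  exact h1.symm

/-- The sum `∑_σ` of the numbers of the `θ ∈ Irr(G_σ)` with `bl(θ)^G = B` and `[ℚ(θ) : ℚ]` odd. -/
def blkOdd (p : ℕ) (O : ValuationSubring ℂ) {G : Type} [Group G] (B : Set (G → ℂ)) : ℕ :=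
  ∑ᶠ c : Quotient (chainSetoid p G), nbo O B (chainStabilizer c.out.1)

theorem blkOdd_mod {G : Type} [Group G] [Finite G] {B : Set (G → ℂ)} (hB : IsBlock O B)
    (hodd : Odd (numConj B)) : blkAltT p O B ≡ blkOdd p O B [MOD 2] := by
  have : Fintype (Quotient (chainSetoid p G)) := Fintype.ofFinite _
  unfold blkAltT blkOdd
  rw [finsum_eq_sum_of_fintype, finsum_eq_sum_of_fintype]
  exact Nat.ModEq.sum fun c _ => nb_mod hB hodd _

theorem numConj_wrSN (j : ℕ) : ∀ (G : Type) [Group G] [Finite G] (B : Set (G → ℂ)),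
    (∀ θ ∈ B, IsIrr θ) → numConj (WrSN j B) = numConj B := by
  induction j with
  | zero => exact fun G _ _ B _ => rfl
  | succ j ih =>
    intro G _ _ B hB
    have := Fintype.ofFinite G
    have h1 := ih (Wr G) (WrS B) (WrS_irr hB)
    have h2 : numConj (WrS B) = numConj B := numConj_WrS hB
    exact h1.trans h2

theorem blk_level (hp2 : p ≠ 2) (hpO : (p : ℂ) ∈ O.nonunits) {G : Type} [Group G]
    {B : Set (G → ℂ)} (h : AdmB p O G B) (hodd : Odd (numConj B)) (j : ℕ) :
    blkAltT p O (WrSN j B) ≡ blkOdd p O (WrSN j B) [MOD 2] := by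
  have := h.fin
  have h1 := AdmB.wrN hp2 hpO j G B h
  have := h1.fin
  have := Fintype.ofFinite G
  refine blkOdd_mod h1.block ?_
  rw [numConj_wrSN j G B h.block.irr]
  exact hodd

theorem abs_le {G : Type} [Group G] [Finite G] (B : Set (G → ℂ)) :
    |blkAlt p O B| ≤ (blkAltT p O B : ℤ) := by
  have : Fintype (Quotient (chainSetoid p G)) := Fintype.ofFinite _
  unfold blkAlt blkAltT alternatingSum
  rw [finsum_eq_sum_of_fintype, finsum_eq_sum_of_fintype, Nat.cast_sum]
  refine (Finset.abs_sum_le_sum_abs _ _).trans (Finset.sum_le_sum fun c _ => ?_)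
  rw [abs_mul, abs_pow, abs_neg, abs_one, one_pow, one_mul, abs_of_nonneg (Int.natCast_nonneg _)]

/-- for one block, finitely many conditions -/
theorem odd_fin (hp2 : p ≠ 2) (hpO : (p : ℂ) ∈ O.nonunits) {G : Type} [Group G]
    {B : Set (G → ℂ)} (h : AdmB p O G B) (hodd : Odd (numConj B)) :
    blkAlt p O B = 0 ↔ ∀ j : ℕ, 2 ^ j ≤ blkAltT p O B → Even (blkOdd p O (WrSN j B)) := by
  have := h.fin
  have hb := h.good hpO
  constructor
  · intro h0 j _
    have h1 := (ba_one hp2 hpO G B hb).mp h0 j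
    rw [Nat.even_iff] at h1 ⊢
    have h2 := blk_level hp2 hpO h hodd j
    rw [Nat.ModEq] at h2
    rw [← h2, h1]
  · intro h0
    have h1 : (2 : ℤ) ^ (Nat.log 2 (blkAltT p O B) + 1) ∣ blkAlt p O B := by
      refine (ba_iff hp2 hpO _ G B hb).mpr fun j hj => ?_
      have h2 := blk_level hp2 hpO h hodd j
      rw [Nat.ModEq] at h2
      rcases Nat.eq_zero_or_pos (blkAltT p O B) with h3 | h3
      · have h4 : |blkAlt p O B| ≤ 0 := by
          have := abs_le (p := p) (O := O) B
          rw [h3] at this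
          exact_mod_cast this
        exact (ba_one hp2 hpO G B hb).mp (abs_eq_zero.mp (le_antisymm h4 (abs_nonneg _))) j
      · have h4 : 2 ^ j ≤ blkAltT p O B :=
          (Nat.pow_le_pow_right two_pos (by omega)).trans (Nat.pow_log_le_self 2 h3.ne')
        have h5 := h0 j h4
        rw [Nat.even_iff] at h5 ⊢
        rw [h2, h5]
    have h2 := abs_le (p := p) (O := O) B
    have h3 : (blkAltT p O B : ℤ) < 2 ^ (Nat.log 2 (blkAltT p O B) + 1) := by
      exact_mod_cast Nat.lt_pow_succ_log_self (one_lt_two) (blkAltT p O B)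
    exact Int.eq_zero_of_abs_lt_dvd h1 (lt_of_le_of_lt h2 h3)

/-- for one block -/
theorem odd_one (hp2 : p ≠ 2) (hpO : (p : ℂ) ∈ O.nonunits) {G : Type} [Group G]
    {B : Set (G → ℂ)} (h : AdmB p O G B) (hodd : Odd (numConj B)) :
    blkAlt p O B = 0 ↔ ∀ j : ℕ, Even (blkOdd p O (WrSN j B)) := by
  have := h.fin
  rw [ba_one hp2 hpO G B (h.good hpO)]
  refine forall_congr' fun j => ?_
  rw [Nat.even_iff, Nat.even_iff]
  have h1 := blk_level hp2 hpO h hodd j
  rw [Nat.ModEq] at h1
  rw [h1]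

/-- all blocks -/
theorem odd_all (hp2 : p ≠ 2) (hpO : (p : ℂ) ∈ O.nonunits) :
    (∀ (G : Type) [Group G] (B : Set (G → ℂ)), AdmB p O G B → blkAlt p O B = 0) ↔
    ∀ (G : Type) [Group G] (B : Set (G → ℂ)), AdmB p O G B → Odd (numConj B) →
      Even (blkOdd p O B) := by
  constructor
  · intro h G _ B hB hodd
    have h1 := h G B hB
    rw [odd_one hp2 hpO hB hodd] at h1
    exact h1 0
  · intro h
    refine inductB hp2 hpO (P := fun G _ B => blkAlt p O B = 0) ?_ ?_
    · intro G _ B hB σ hσ hP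
      have := hB.fin
      have := Fintype.ofFinite G
      have h1 := blkAlt_wrM hp2 hpO hB.block (gal_block σ hB.block) (Ne.symm hσ)
      have h2 : blkAlt p O (gal σ B) = blkAlt p O B := blkAlt_gal σ hB.block
      rw [h2, hP] at h1
      exact mul_self_eq_zero.mp h1.symm
    · intro G _ B hB hodd
      rw [odd_one hp2 hpO hB hodd]
      intro j
      refine h (WrN j G) (WrSN j B) (AdmB.wrN hp2 hpO j G B hB) ?_
      have := hB.fin
      have := Fintype.ofFinite G
      rw [numConj_wrSN j G B hB.block.irr]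
      exact hodd

end sums

end Pool.Agent.K4H11.AW
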