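import Pool.Agent.K4H11.AW.Rec
import Pool.Agent.Q99.AS.Pow

/-!
# Alternating sums for the blocks of direct products
-/

set_option autoImplicit false
set_option linter.unusedSectionVars false

open scoped BigOperators Classical

noncomputable section

namespace Pool.Agent.K4H11.AW

open Pool.Agent.Y63.KR Pool.Agent.Q259.BW Pool.Agent.H254R3.IN Pool.Agent.Q90.WR Pool.Agent.Q288.MB
open Pool.Agent.Q99.AS (altSum altSum_prod isConj_prod)

section sums

variable {K K' G G' : Type} [Group K] [Fintype K] [Group K'] [Fintype K'] [Group G] [Group G']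

theorem L_box {π : K → G} {π' : K' → G'} (θ : K → ℂ) (ψ : K' → ℂ) (a : G) (b : G') :
    L (Prod.map π π') (box θ ψ) (a, b) = L π θ a * L π' ψ b := by
  unfold L
  have e3 : ∀ c : K × K', (if IsConj (a, b) (Prod.map π π' c) then box θ ψ c else 0) =
      (if IsConj a (π c.1) then θ c.1 else 0) * (if IsConj b (π' c.2) then ψ c.2 else 0) := by
    rintro ⟨c, d⟩
    have h0 : IsConj (a, b) (Prod.map π π' (c, d)) ↔ IsConj a (π c) ∧ IsConj b (π' d) := isConj_prod
    by_cases h1 : IsConj a (π c)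
    · by_cases h2 : IsConj b (π' d)
      · rw [if_pos (h0.mpr ⟨h1, h2⟩), if_pos h1, if_pos h2]
        rfl
      · rw [if_neg (fun h => h2 (h0.mp h).2), if_neg h2, mul_zero]
    · rw [if_neg (fun h => h1 (h0.mp h).1), if_neg h1, zero_mul]
  simp_rw [e3]
  rw [Fintype.sum_prod_type]
  simp only
  rw [← Finset.sum_mul_sum, div_mul_div_comm]
  rfl

theorem omega_box [Fintype G] [Fintype G'] {θ : G → ℂ} {ψ : G' → ℂ} (h1 : IsIrr θ) (h2 : IsIrr ψ)
    (a : G) (b : G') : omega (box θ ψ) (a, b) = omega θ a * omega ψ b := by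
  rw [omega_eq_L (box_irr h1 h2), omega_eq_L h1, omega_eq_L h2]
  exact L_box (π := (MonoidHom.id G : G → G)) (π' := (MonoidHom.id G' : G' → G')) θ ψ a b

end sums

section blocks

variable {G G' : Type} [Group G] [Group G'] [Fintype G] [Fintype G'] {O : ValuationSubring ℂ}
  {B : Set (G → ℂ)} {B' : Set (G' → ℂ)}

theorem mem_of_red {B : Set (G → ℂ)} (hB : IsBlock O B) {χ₀ χ : G → ℂ} (h0 : χ₀ ∈ B) (hχ : IsIrr χ)
    (h : ∀ a, red O (omega χ a) = red O (omega χ₀ a)) : χ ∈ B := by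
  by_contra hn
  obtain ⟨x, hx⟩ := hB.exists_ne h0 hχ hn
  first
  | exact hx (h x)
  | exact hx (h x).symm

theorem bxS_irr (hB : ∀ θ ∈ B, IsIrr θ) (hB' : ∀ θ ∈ B', IsIrr θ) : ∀ χ ∈ bxS B B', IsIrr χ := by
  rintro _ ⟨θ, h1, ψ, h2, rfl⟩
  exact box_irr (hB _ h1) (hB' _ h2)

theorem box_block (hB : IsBlock O B) (hB' : IsBlock O B') : IsBlock O (bxS B B') := by
  obtain ⟨θ₀, t0⟩ := hB.nonempty
  obtain ⟨ψ₀, s0⟩ := hB'.nonempty
  have i0 := hB.irr _ t0
  have j0 := hB'.irr _ s0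
  refine ⟨box θ₀ ψ₀, box_irr i0 j0, Set.Subset.antisymm ?_ ?_⟩
  · rintro _ ⟨θ, h1, ψ, h2, rfl⟩
    have i1 := hB.irr _ h1
    have i2 := hB'.irr _ h2
    refine ⟨box_irr i1 i2, ?_⟩
    rintro ⟨a, b⟩
    rw [← red_eq_iff ((show IsIrr (box θ ψ) from box_irr i1 i2).omega_mem O _) ((show IsIrr (box θ₀ ψ₀) from box_irr i0 j0).omega_mem O _),
      omega_box i1 i2, omega_box i0 j0, red_mul (i1.omega_mem O a) (i2.omega_mem O b),
      red_mul (i0.omega_mem O a) (j0.omega_mem O b), hB.red_eq h1 t0 a, hB'.red_eq h2 s0 b]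
  · rintro χ ⟨hχ, hx⟩
    obtain ⟨θ, ψ, i1', i2', rfl⟩ := box_cover hχ
    have i1 : IsIrr θ := i1'
    have i2 : IsIrr ψ := i2'
    have h : ∀ a b, red O (omega θ a) * red O (omega ψ b) =
        red O (omega θ₀ a) * red O (omega ψ₀ b) := by
      intro a b
      have h1 := hx (a, b)
      rw [← red_eq_iff ((show IsIrr (box θ ψ) from box_irr i1 i2).omega_mem O _) ((show IsIrr (box θ₀ ψ₀) from box_irr i0 j0).omega_mem O _),
        omega_box i1 i2, omega_box i0 j0, red_mul (i1.omega_mem O a) (i2.omega_mem O b),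
        red_mul (i0.omega_mem O a) (j0.omega_mem O b)] at h1
      exact h1
    refine ⟨θ, mem_of_red hB t0 i1 fun a => ?_, ψ, mem_of_red hB' s0 i2 fun b => ?_, rfl⟩
    · have := h a 1
      rwa [omega_one i2, omega_one j0, red_one, mul_one, mul_one] at this
    · have := h 1 b
      rwa [omega_one i1, omega_one i0, red_one, one_mul, one_mul] at this

theorem IndS_box {K K' : Type} [Group K] [Fintype K] [Group K'] [Fintype K'] (hB : IsBlock O B)
    (hB' : IsBlock O B') (π : K →* G) (π' : K' →* G') (hπ : Function.Injective π)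
    (hπ' : Function.Injective π') :
    IndS O (bxS B B') (Prod.map π π') = bxS (IndS O B π) (IndS O B' π') := by
  obtain ⟨θ₀, t0⟩ := hB.nonempty
  obtain ⟨ψ₀, s0⟩ := hB'.nonempty
  have i0 := hB.irr _ t0
  have j0 := hB'.irr _ s0
  have hW := box_block hB hB'
  have hX : box θ₀ ψ₀ ∈ bxS B B' := ⟨θ₀, t0, ψ₀, s0, rfl⟩
  ext χ
  rw [mem_IndS hW hX]
  constructor
  · rintro ⟨h1, h3⟩
    obtain ⟨θ, ψ, i1, i2, rfl⟩ := box_cover h1
    have m1 := L_mem (π := π) i1 O
    have m2 := L_mem (π := π') i2 O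
    have h : ∀ a b, red O (L π θ a) * red O (L π' ψ b) =
        red O (omega θ₀ a) * red O (omega ψ₀ b) := by
      intro a b
      have h4 := (h3 (a, b)).2
      rw [L_box, omega_box i0 j0, red_mul (m1 a) (m2 b),
        red_mul (i0.omega_mem O a) (j0.omega_mem O b)] at h4
      exact h4
    refine ⟨θ, (mem_IndS hB t0 _ _).mpr ⟨i1, fun a => ⟨m1 a, ?_⟩⟩, ψ,
      (mem_IndS hB' s0 _ _).mpr ⟨i2, fun b => ⟨m2 b, ?_⟩⟩, rfl⟩
    · have := h a 1
      rwa [L_at_one hπ' (IsIrr.one_ne i2), omega_one j0, red_one, mul_one, mul_one] at this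
    · have := h 1 b
      rwa [L_at_one hπ (IsIrr.one_ne i1), omega_one i0, red_one, one_mul, one_mul] at this
  · rintro ⟨θ, h1, ψ, h3, rfl⟩
    rw [mem_IndS hB t0] at h1
    rw [mem_IndS hB' s0] at h3
    obtain ⟨i1, e1⟩ := h1
    obtain ⟨i2, e2⟩ := h3
    refine ⟨box_irr i1 i2, ?_⟩
    rintro ⟨a, b⟩
    rw [L_box, omega_box i0 j0, red_mul (e1 a).1 (e2 b).1,
      red_mul (i0.omega_mem O a) (j0.omega_mem O b), (e1 a).2, (e2 b).2]
    exact ⟨O.mul_mem _ _ (e1 a).1 (e2 b).1, rfl⟩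

theorem Om_box (f : G → ℂ) (f' : G' → ℂ) (θ : G → ℂ) (ψ : G' → ℂ) :
    Om (box f f') (box θ ψ) = Om f θ * Om f' ψ := by
  unfold Om
  rw [Fintype.sum_prod_type]
  have e : ∀ a : G, ∀ b : G', box f f' (a, b) * box θ ψ (a, b) = (f a * θ a) * (f' b * ψ b) := by
    intro a b
    simp only [box]
    ring
  simp_rw [e]
  rw [← Finset.sum_mul_sum, div_mul_div_comm]
  rfl

theorem coeff_box (hB : ∀ θ ∈ B, IsIrr θ) (hB' : ∀ θ ∈ B', IsIrr θ) :
    blockCoeff (bxS B B') = box (blockCoeff B) (blockCoeff B') := by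
  have hi := bxS_irr hB hB'
  apply eq_of_Om (blockCoeff_cl hi)
  · rintro ⟨g, g'⟩ ⟨y, y'⟩
    change blockCoeff B (y * g * y⁻¹) * blockCoeff B' (y' * g' * y'⁻¹) = _
    rw [blockCoeff_cl hB, blockCoeff_cl hB']
    rfl
  · intro χ hχ
    obtain ⟨θ, ψ, i1, i2, rfl⟩ := box_cover hχ
    rw [Om_blockCoeff hi hχ, Om_box, Om_blockCoeff hB i1, Om_blockCoeff hB' i2]
    by_cases h1 : θ ∈ B
    · by_cases h2 : ψ ∈ B'
      · rw [if_pos h1, if_pos h2, if_pos ⟨θ, h1, ψ, h2, rfl⟩, mul_one]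
      · rw [if_neg h2, mul_zero, if_neg]
        rintro ⟨θ', h3, ψ', h4, h5⟩
        obtain ⟨rfl, rfl⟩ := box_inj i1 i2 (hB _ h3) (hB' _ h4) h5
        exact h2 h4
    · rw [if_neg h1, zero_mul, if_neg]
      rintro ⟨θ', h3, ψ', h4, h5⟩
      obtain ⟨rfl, rfl⟩ := box_inj i1 i2 (hB _ h3) (hB' _ h4) h5
      exact h1 h3

theorem centralizer_prod (x : G) (x' : G') :
    Subgroup.centralizer ({(x, x')} : Set (G × G')) =
      (Subgroup.centralizer ({x} : Set G)).prod (Subgroup.centralizer ({x'} : Set G')) := by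
  ext ⟨a, b⟩
  rw [Subgroup.mem_prod, Subgroup.mem_centralizer_singleton_iff,
    Subgroup.mem_centralizer_singleton_iff, Subgroup.mem_centralizer_singleton_iff]
  simp only [Prod.mk_mul_mk, Prod.mk.injEq]

theorem box_defect {p : ℕ} [hp : Fact p.Prime] (hB : IsBlock O B) (hB' : IsBlock O B')
    {D : Subgroup G} {D' : Subgroup G'} (hD : IsDefectGroup p O B D)
    (hD' : IsDefectGroup p O B' D') : IsDefectGroup p O (bxS B B') (D.prod D') := by
  rw [isDefectGroup_iff] at hD hD' ⊢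
  obtain ⟨x, h1, h2, h3, h4, h5⟩ := hD
  obtain ⟨x', h1', h2', h3', h4', h5'⟩ := hD'
  have hle : D.prod D' ≤ Subgroup.centralizer ({(x, x')} : Set (G × G')) := by
    rw [centralizer_prod]
    exact Subgroup.prod_mono h1 h1'
  refine ⟨(x, x'), hle, Pool.Agent.Q99.AS.isPGroup_prod h2 h2', ?_, ?_, ?_⟩
  · have e1 := card_mul_relIndex hle
    have e2 := card_mul_relIndex h1
    have e3 := card_mul_relIndex h1'
    have e4 : (D.prod D').relIndex (Subgroup.centralizer ({(x, x')} : Set (G × G'))) =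
        D.relIndex (Subgroup.centralizer ({x} : Set G)) *
          D'.relIndex (Subgroup.centralizer ({x'} : Set G')) := by
      have e5 : 0 < Nat.card D * Nat.card D' := Nat.mul_pos Nat.card_pos Nat.card_pos
      apply Nat.eq_of_mul_eq_mul_left e5
      rw [Pool.Agent.Q99.AS.card_prod'] at e1
      rw [e1, centralizer_prod, Pool.Agent.Q99.AS.card_prod', ← e2, ← e3]
      ring
    rw [e4]
    intro h
    rcases (Nat.Prime.dvd_mul hp.out).mp h with h | h
    · exact h3 h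
    · exact h3' h
  · rintro _ ⟨θ, t1, ψ, t2, rfl⟩ hcon
    have i1 := hB.irr _ t1
    have i2 := hB'.irr _ t2
    have h6 := red_eq_zero hcon
    rw [omega_box i1 i2, red_mul (i1.omega_mem O _) (i2.omega_mem O _)] at h6
    rcases mul_eq_zero.mp h6 with h7 | h7
    · exact h4 _ t1 ((red_eq_zero_iff (i1.omega_mem O _)).mp h7)
    · exact h4' _ t2 ((red_eq_zero_iff (i2.omega_mem O _)).mp h7)
  · rw [coeff_box hB.irr hB'.irr]
    intro hcon
    have m := blockCoeff_mem hB x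
    have m' := blockCoeff_mem hB' x'
    have h6 := red_eq_zero hcon
    have h7 : red O (blockCoeff B x * blockCoeff B' x') = 0 := h6
    rw [red_mul m m'] at h7
    rcases mul_eq_zero.mp h7 with h7 | h7
    · exact h5 ((red_eq_zero_iff m).mp h7)
    · exact h5' ((red_eq_zero_iff m').mp h7)

theorem core_prod {p : ℕ} {G G' : Type} [Group G] [Group G']
    (h : ∀ P : Subgroup G, P.Normal → IsPGroup p P → P = ⊥)
    (h' : ∀ P : Subgroup G', P.Normal → IsPGroup p P → P = ⊥) (P : Subgroup (G × G'))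
    (hn : P.Normal) (hP : IsPGroup p P) : P = ⊥ := by
  have h1 := h (P.map (MonoidHom.fst G G')) (hn.map _ fun x => ⟨(x, 1), rfl⟩) (hP.map _)
  have h2 := h' (P.map (MonoidHom.snd G G')) (hn.map _ fun x => ⟨(1, x), rfl⟩) (hP.map _)
  rw [Subgroup.eq_bot_iff_forall]
  rintro ⟨a, b⟩ hx
  have e1 : a ∈ P.map (MonoidHom.fst G G') := ⟨(a, b), hx, rfl⟩
  have e2 : b ∈ P.map (MonoidHom.snd G G') := ⟨(a, b), hx, rfl⟩
  rw [h1, Subgroup.mem_bot] at e1
  rw [h2, Subgroup.mem_bot] at e2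
  exact Prod.ext e1 e2

end blocks

section adm

variable {p : ℕ} [hp : Fact p.Prime] {O : ValuationSubring ℂ}

theorem _root_.Pool.Agent.Q90.WR.AdmB.prod {G G' : Type} [Group G] [Group G'] {B : Set (G → ℂ)}
    {B' : Set (G' → ℂ)} (h : AdmB p O G B) (h' : AdmB p O G' B') :
    AdmB p O (G × G') (bxS B B') := by
  have := h.fin
  have := h'.fin
  have := Fintype.ofFinite G
  have := Fintype.ofFinite G'
  obtain ⟨D, hD, hne⟩ := h.defect
  obtain ⟨D', hD', -⟩ := h'.defect
  refine ⟨inferInstance, core_prod h.core h'.core, box_block h.block h'.block, D.prod D',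
    box_defect h.block h'.block hD hD', ?_⟩
  intro h1
  apply hne
  rw [Subgroup.eq_bot_iff_forall]
  intro x hx
  have h2 : (x, (1 : G')) ∈ D.prod D' := Subgroup.mem_prod.mpr ⟨hx, D'.one_mem⟩
  rw [h1, Subgroup.mem_bot] at h2
  exact congrArg Prod.fst h2

/-! ### alternating sums -/

theorem sum_setoid {X : Type} {P Q : X → Prop} (h : P = Q) (r : Setoid {x // P x})
    (s : Setoid {x // Q x})
    (hrs : ∀ (x y : X) (hx : P x) (hy : P y) (hx' : Q x) (hy' : Q y),
      r.r ⟨x, hx⟩ ⟨y, hy⟩ ↔ s.r ⟨x, hx'⟩ ⟨y, hy'⟩) (f : X → ℤ) :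
    ∑ᶠ c : Quotient r, f c.out.1 = ∑ᶠ c : Quotient s, f c.out.1 := by
  subst h
  have : r = s := Setoid.ext fun a b => hrs a.1 b.1 a.2 b.2 a.2 b.2
  subst this
  rfl

theorem alt_eq {G : Type} [Group G] (f : Subgroup G → ℤ) :
    alternatingSum p G f = altSum p (⊥ : Subgroup G) f := by
  have h : (IsPChain p : Set (Subgroup G) → Prop) = Pool.Agent.Q99.AS.IsCh p (⊥ : Subgroup G) := by
    funext σ
    apply propext
    constructor
    · intro h
      exact ⟨h.chain, h.isPGroup, fun P hP => bot_lt_iff_ne_bot.mpr (h.ne_bot P hP)⟩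
    · intro h
      exact ⟨h.chain, h.isPGroup, fun P hP => bot_lt_iff_ne_bot.mp (h.lt P hP)⟩
  exact sum_setoid h (chainSetoid p G) (Pool.Agent.Q99.AS.chSetoid p ⊥)
    (fun x y hx hy hx' hy' => Iff.rfl) (fun σ => (-1) ^ σ.ncard * f (chainStabilizer σ))

theorem blkAlt_prod {G G' : Type} [Group G] [Group G'] [Finite G] [Finite G'] {B : Set (G → ℂ)}
    {B' : Set (G' → ℂ)} (hB : IsBlock O B) (hB' : IsBlock O B') :
    blkAlt p O (bxS B B') = blkAlt p O B * blkAlt p O B' := by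
  have := Fintype.ofFinite G
  have := Fintype.ofFinite G'
  have hb : ∀ (J : Type) [Group J], IsPGroup p (⊥ : Subgroup J) := fun J _ => IsPGroup.of_bot
  have h1 := altSum_prod (p := p) (hb G) (hb G') inferInstance inferInstance
    (Finset.univ : Finset Unit) (fun H : Subgroup (G × G') => (nb O (bxS B B') H : ℤ))
    (fun _ H => (nb O B H : ℤ)) (fun _ H => (nb O B' H : ℤ))
    (fun g H => by simp only [nb_conj]) (fun _ g H => by simp only [nb_conj])
    (fun _ g H => by simp only [nb_conj]) ?_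
  · rw [Finset.univ_unique, Finset.sum_singleton] at h1
    have hbot : (⊥ : Subgroup G).prod (⊥ : Subgroup G') = ⊥ := Subgroup.bot_prod_bot
    rw [hbot, ← alt_eq, ← alt_eq, ← alt_eq] at h1
    exact h1
  intro H K
  rw [Finset.univ_unique, Finset.sum_singleton]
  have := Fintype.ofFinite H
  have := Fintype.ofFinite K
  have h := IndS_box hB hB' H.subtype K.subtype (Subgroup.subtype_injective H)
    (Subgroup.subtype_injective K)
  have h3 : IndS O (bxS B B') (Prod.map (Subtype.val : H → G) (Subtype.val : K → G')) =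
    bxS (IndS O B (Subtype.val : H → G)) (IndS O B' (Subtype.val : K → G')) := h
  have h4 : nb O (bxS B B') (H.prod K) =
      Nat.card (IndS O (bxS B B') (Prod.map (Subtype.val : H → G) (Subtype.val : K → G'))) := by
    refine card_transport' (Subgroup.prodEquiv H K) fun θ =>
      IndS_congr (Subgroup.prodEquiv H K) (fun c => ?_) θ
    exact IsConj.refl _
  rw [h4, h3, card_bxS IndS_irr IndS_irr]
  push_cast
  rfl

end adm

end Pool.Agent.K4H11.AW
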