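import Pool.Agent.K4H11.AW.Mix

/-!
# The alternating sum of the mixed block is a product
-/

set_option autoImplicit false
set_option linter.unusedSectionVars false

open scoped BigOperators Classical

noncomputable section

namespace Pool.Agent.K4H11.AW

open Pool.Agent.Y63.KR Pool.Agent.Q259.BW Pool.Agent.H254R3.IN Pool.Agent.Q90.WR Pool.Agent.Q288.MB

section recursion

variable {G : Type} [Group G] [Fintype G] {p : ℕ} [hp : Fact p.Prime]

/-- **the sum over the chains of the wreath product, mixed case** -/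
theorem wsumS_mix (hp2 : p ≠ 2) (f₁ f₂ : Subgroup G → ℚ) (F : Subgroup (Wr G) → ℚ)
    (hconj₁ : ∀ (b : G) (H : Subgroup G), f₁ (conjSub b H) = f₁ H)
    (hconj₂ : ∀ (b : G) (H : Subgroup G), f₂ (conjSub b H) = f₂ H)
    (hprod : ∀ H K : Subgroup G, F (prd H K) = f₁ H * f₂ K + f₂ H * f₁ K)
    (hwr : ∀ (b : G) (H : Subgroup G), F (twS b H) = f₁ H * f₂ H) :
    wsumS p F = 2 * (wsumS p f₁ * wsumS p f₂) := by
  unfold wsumS
  rw [functional hp2 (fun H : Subgroup (Wr G) => (Nat.card H : ℚ) * F H)]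
  have e1 : ∀ H K : Subgroup G, (Nat.card (prd H K) : ℚ) * F (prd H K) =
      ((Nat.card H : ℚ) * f₁ H) * ((Nat.card K : ℚ) * f₂ K) +
        ((Nat.card H : ℚ) * f₂ H) * ((Nat.card K : ℚ) * f₁ K) := by
    intro H K
    rw [hprod, Nat.card_congr (prdEquiv H K).toEquiv, Nat.card_prod]
    push_cast
    ring
  have e2 : ∀ (b : G) (H : Subgroup G), (Nat.card (twS b H) : ℚ) * F (twS b H) =
      2 * (((Nat.card H : ℚ) * f₁ H) * ((Nat.card H : ℚ) * f₂ H)) := by
    intro b H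
    have e : twS b H ≃* Wr H := (conjEquiv (⟨1, b, false⟩ : Wr G) (wrS H)).symm.trans (wrSEquiv _)
    rw [Nat.card_congr e.toEquiv, Wr.card, hwr b H]
    push_cast
    ring
  have e3 : ∀ (b : G) (H : Subgroup G), (Nat.card (conjSub b H) : ℚ) = (Nat.card H : ℚ) := by
    intro b H
    rw [Nat.card_congr (conjEquiv b H).symm.toEquiv]
  have e4 : ∀ σ : Ch p G, ((Nat.card (chainStabilizer σ.1) : ℚ)⁻¹ • ∑ b : G,
      ((Nat.card (twS b (chainStabilizer σ.1)) : ℚ) * F (twS b (chainStabilizer σ.1)) -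
        (Nat.card (prd (chainStabilizer σ.1) (conjSub b (chainStabilizer σ.1))) : ℚ) *
          F (prd (chainStabilizer σ.1) (conjSub b (chainStabilizer σ.1))))) = 0 := by
    intro σ
    rw [Finset.sum_eq_zero fun b _ => ?_, smul_zero]
    rw [e2, e1, e3, hconj₁, hconj₂]
    ring
  have e5 : ∑ σ : Ch p G, (-1 : ℚ) ^ σ.1.ncard * ((Nat.card (chainStabilizer σ.1) : ℚ)⁻¹ •
      ∑ b : G, ((Nat.card (twS b (chainStabilizer σ.1)) : ℚ) * F (twS b (chainStabilizer σ.1)) -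
        (Nat.card (prd (chainStabilizer σ.1) (conjSub b (chainStabilizer σ.1))) : ℚ) *
          F (prd (chainStabilizer σ.1) (conjSub b (chainStabilizer σ.1))))) = 0 :=
    Finset.sum_eq_zero fun σ _ => by rw [e4 σ, mul_zero]
  rw [e5, add_zero, Finset.sum_mul_sum]
  have h6 : ∑ σ : Ch p G, ∑ τ : Ch p G, (-1 : ℚ) ^ σ.1.ncard * ((-1 : ℚ) ^ τ.1.ncard *
      ((Nat.card (prd (chainStabilizer σ.1) (chainStabilizer τ.1)) : ℚ) *
        F (prd (chainStabilizer σ.1) (chainStabilizer τ.1)))) =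
      ∑ σ : Ch p G, ∑ τ : Ch p G, ((-1 : ℚ) ^ σ.1.ncard *
        ((Nat.card (chainStabilizer σ.1) : ℚ) * f₁ (chainStabilizer σ.1))) *
        ((-1 : ℚ) ^ τ.1.ncard *
        ((Nat.card (chainStabilizer τ.1) : ℚ) * f₂ (chainStabilizer τ.1))) +
      ∑ σ : Ch p G, ∑ τ : Ch p G, ((-1 : ℚ) ^ σ.1.ncard *
        ((Nat.card (chainStabilizer σ.1) : ℚ) * f₂ (chainStabilizer σ.1))) *
        ((-1 : ℚ) ^ τ.1.ncard *
        ((Nat.card (chainStabilizer τ.1) : ℚ) * f₁ (chainStabilizer τ.1))) := by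
    rw [← Finset.sum_add_distrib]
    refine Finset.sum_congr rfl fun σ _ => ?_
    rw [← Finset.sum_add_distrib]
    refine Finset.sum_congr rfl fun τ _ => ?_
    rw [e1]
    ring
  rw [h6]
  have h7 : ∑ σ : Ch p G, ∑ τ : Ch p G, ((-1 : ℚ) ^ σ.1.ncard *
        ((Nat.card (chainStabilizer σ.1) : ℚ) * f₂ (chainStabilizer σ.1))) *
        ((-1 : ℚ) ^ τ.1.ncard *
        ((Nat.card (chainStabilizer τ.1) : ℚ) * f₁ (chainStabilizer τ.1))) =
      ∑ σ : Ch p G, ∑ τ : Ch p G, ((-1 : ℚ) ^ σ.1.ncard *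
        ((Nat.card (chainStabilizer σ.1) : ℚ) * f₁ (chainStabilizer σ.1))) *
        ((-1 : ℚ) ^ τ.1.ncard *
        ((Nat.card (chainStabilizer τ.1) : ℚ) * f₂ (chainStabilizer τ.1))) := by
    rw [Finset.sum_comm]
    exact Finset.sum_congr rfl fun σ _ => Finset.sum_congr rfl fun τ _ => mul_comm _ _
  rw [h7, two_mul]

end recursion

section alt

variable {G : Type} [Group G] [Fintype G] {p : ℕ} [hp : Fact p.Prime] {O : ValuationSubring ℂ}
  {B₁ B₂ B : Set (G → ℂ)}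

theorem wsumS_nb (p : ℕ) [Fact p.Prime] (O : ValuationSubring ℂ) {G : Type} [Group G] [Finite G]
    (B : Set (G → ℂ)) :
    wsumS p (fun H => (nb O B H : ℚ)) = (Nat.card G : ℚ) * (blkAlt p O B : ℚ) := by
  have := Fintype.ofFinite G
  have h := card_mul_alternatingSum' (p := p) (G := G)
    (fun H => (Nat.card (IndS O B (Subtype.val : H → G)) : ℤ)) (fun g H => by
      have h1 := nb_conj (O := O) (B := B) g H
      unfold nb at h1
      exact_mod_cast h1)
  have h3 : ((Nat.card G : ℚ) * (blkAlt p O B : ℚ)) =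
      (((Nat.card G : ℤ) * alternatingSum p G
        (fun H => (Nat.card (IndS O B (Subtype.val : H → G)) : ℤ)) : ℤ) : ℚ) := by
    push_cast
    rfl
  rw [h3, h, Int.cast_sum]
  unfold wsumS
  refine Finset.sum_congr rfl fun σ _ => ?_
  unfold nb
  push_cast
  ring

/-- **the alternating sum of the mixed block** -/
theorem blkAlt_wrM (hp2 : p ≠ 2) (hpO : (p : ℂ) ∈ O.nonunits) (hB₁ : IsBlock O B₁)
    (hB₂ : IsBlock O B₂) (hne : B₁ ≠ B₂) :
    blkAlt p O (WrM B₁ B₂) = blkAlt p O B₁ * blkAlt p O B₂ := by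
  have h2 := half_mem (O := O) hp2 hpO
  have h := wsumS_mix (p := p) hp2 (fun H => (nb O B₁ H : ℚ)) (fun H => (nb O B₂ H : ℚ))
    (fun H => (nb O (WrM B₁ B₂) H : ℚ)) (fun b H => by simp only [nb_conj])
    (fun b H => by simp only [nb_conj])
    (fun H K => by
      have := nb_prd h2 hB₁ hB₂ hne H K
      exact_mod_cast this)
    (fun b H => by
      have := nb_twS h2 hB₁ hB₂ hne b H
      exact_mod_cast this)
  rw [wsumS_nb, wsumS_nb, wsumS_nb, Wr.card] at h
  have hc : (Nat.card G : ℚ) ≠ 0 := by exact_mod_cast (Nat.card_pos (α := G)).ne'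
  have h3 : (blkAlt p O (WrM B₁ B₂) : ℚ) = (blkAlt p O B₁ : ℚ) * (blkAlt p O B₂ : ℚ) := by
    have h4 : (2 * (Nat.card G : ℚ) ^ 2) * (blkAlt p O (WrM B₁ B₂) : ℚ) =
        (2 * (Nat.card G : ℚ) ^ 2) * ((blkAlt p O B₁ : ℚ) * (blkAlt p O B₂ : ℚ)) := by
      push_cast at h
      linear_combination h
    exact mul_left_cancel₀ (mul_ne_zero two_ne_zero (pow_ne_zero 2 hc)) h4
  exact_mod_cast h3

/-- the mixed blocks -/
theorem admB_mix (hp2 : p ≠ 2) (hpO : (p : ℂ) ∈ O.nonunits) {G : Type} [Group G] {B : Set (G → ℂ)}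
    (h : AdmB p O G B) {σ : ℂ ≃+* ℂ} (hσ : gal σ B ≠ B) :
    AdmB p O (Wr G) (WrM B (gal σ B)) := by
  have := h.fin
  have := Fintype.ofFinite G
  obtain ⟨D, hD, hne⟩ := h.defect
  refine ⟨inferInstance, Op_wr hp2 h.core, wrM_block h.block (gal_block σ h.block) (Ne.symm hσ),
    dbl D, wrM_defect hpO h.block (gal_block σ h.block) (Ne.symm hσ) hD
      (gal_defect σ h.block.irr hD), ?_⟩
  intro h1
  apply hne
  rw [Subgroup.eq_bot_iff_forall]
  intro x hx
  have h2 : (⟨x, x, false⟩ : Wr G) ∈ dbl D := by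
    rw [mem_dbl]
    exact ⟨rfl, hx, hx⟩
  rw [h1, Subgroup.mem_bot] at h2
  exact congrArg Wr.a h2

end alt

/-! ### Galois conjugates -/

section galois

variable {G : Type} [Group G] [Fintype G] {p : ℕ} [hp : Fact p.Prime] {O : ValuationSubring ℂ}

theorem L_gal {K : Type} [Group K] [Fintype K] {σ : ℂ ≃+* ℂ} {N j : ℕ} (hj : N.Coprime j)
    (hG : Nat.card G ∣ N) (hK : Nat.card K ∣ N)
    (hσ : ∀ (G : Type) [Group G] (χ : G → ℂ), IsIrr χ → ∀ g : G, g ^ N = 1 → σ (χ g) = χ (g ^ j))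
    (π : K →* G) {θ : K → ℂ} (hθ : IsIrr θ) (x : G) :
    L π (fun g => σ (θ g)) x = L π θ (x ^ j) := by
  have hg : ∀ g : K, g ^ N = 1 := fun g => by
    obtain ⟨m, hm⟩ := hK
    rw [hm, pow_mul, pow_card_eq_one', one_pow]
  unfold L
  simp only [hσ _ θ hθ _ (hg _), one_pow]
  congr 1
  refine Fintype.sum_equiv (pw hj hK) _ _ fun g => ?_
  have : IsConj x (π g) ↔ IsConj (x ^ j) (π (pw hj hK g)) := by
    rw [pw_apply, map_pow]
    exact (isConj_pow hj hG).symm
  simp only [this]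
  rfl

/-- the characters whose blocks induce to a Galois conjugate -/
theorem IndS_gal (σ : ℂ ≃+* ℂ) {B : Set (G → ℂ)} (hB : IsBlock O B) (H : Subgroup G) :
    IndS O (gal σ B) (Subtype.val : H → G) = gal σ (IndS O B (Subtype.val : H → G)) := by
  have := Fintype.ofFinite H
  obtain ⟨j, hj, hσ⟩ := exists_pow σ (N := Nat.card G) Nat.card_pos
  obtain ⟨χ₀, h0⟩ := hB.nonempty
  have h0' : (fun g => σ (χ₀ g)) ∈ gal σ B := ⟨χ₀, h0, rfl⟩
  have hK : Nat.card H ∣ Nat.card G := Subgroup.card_subgroup_dvd_card H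
  have key : ∀ θ : H → ℂ, IsIrr θ → ((fun g => σ (θ g)) ∈ IndS O (gal σ B) (Subtype.val : H → G) ↔
      θ ∈ IndS O B (Subtype.val : H → G)) := by
    intro θ hθ
    rw [mem_IndS (gal_block σ hB) h0', mem_IndS hB h0]
    have h1 : ∀ x, L (Subtype.val : H → G) (fun g => σ (θ g)) x =
        L (Subtype.val : H → G) θ (x ^ j) := fun x => L_gal hj dvd_rfl hK hσ H.subtype hθ x
    constructor
    · rintro ⟨-, h2⟩
      refine ⟨hθ, fun x => ?_⟩
      obtain ⟨y, rfl⟩ := (pw hj (dvd_refl (Nat.card G))).surjective x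
      have h3 := h2 y
      rw [h1, omega_gal hj dvd_rfl hσ (hB.irr _ h0)] at h3
      exact h3
    · rintro ⟨-, h2⟩
      refine ⟨irr_gal σ hθ, fun x => ?_⟩
      rw [h1, omega_gal hj dvd_rfl hσ (hB.irr _ h0)]
      exact h2 _
  ext θ
  constructor
  · intro h
    have hi := IndS_irr _ h
    have h2 : θ = (fun g => σ ((fun g => σ.symm (θ g)) g)) := by
      funext g
      simp
    rw [h2] at h
    exact ⟨_, (key _ (irr_gal σ.symm hi)).mp h, h2⟩
  · rintro ⟨ψ, hψ, rfl⟩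
    exact (key ψ (IndS_irr _ hψ)).mpr hψ

theorem blkAlt_gal (σ : ℂ ≃+* ℂ) {B : Set (G → ℂ)} (hB : IsBlock O B) :
    blkAlt p O (gal σ B) = blkAlt p O B := by
  unfold blkAlt
  congr 1
  funext H
  rw [IndS_gal σ hB H, card_gal]

/-- **Induction** on the number of Galois conjugates -/
theorem inductB (hp2 : p ≠ 2) (hpO : (p : ℂ) ∈ O.nonunits)
    {P : ∀ (G : Type) [Group G], Set (G → ℂ) → Prop}
    (hP : ∀ (G : Type) [Group G] (B : Set (G → ℂ)), AdmB p O G B → ∀ σ : ℂ ≃+* ℂ, gal σ B ≠ B →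
      P (Wr G) (WrM B (gal σ B)) → P G B)
    (h0 : ∀ (G : Type) [Group G] (B : Set (G → ℂ)), AdmB p O G B → Odd (numConj B) → P G B) :
    ∀ (G : Type) [Group G] (B : Set (G → ℂ)), AdmB p O G B → P G B := by
  have key : ∀ n : ℕ, ∀ (G : Type) [Group G] (B : Set (G → ℂ)), AdmB p O G B →
      numConj B = n → P G B := by
    intro n
    induction n using Nat.strong_induction_on with
    | _ n ih =>
      intro G _ B hB hn
      have := hB.fin
      have := Fintype.ofFinite G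
      by_cases h : ∀ σ : ℂ ≃+* ℂ, gal σ (gal σ B) = B → gal σ B = B
      · exact h0 G B hB (odd_of_no_inv hB.block.irr h)
      · push Not at h
        obtain ⟨σ, h2, h1⟩ := h
        have hlt := numConj_lt hB.block.irr h2 h1
        rw [hn] at hlt
        exact hP G B hB σ h1 (ih _ hlt _ _ (admB_mix hp2 hpO hB h1) rfl)
  exact fun G _ B hB => key _ G B hB rfl

end galois

end Pool.Agent.K4H11.AW
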